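import Pool.Agent.H773Z.Hunt.Main

set_option autoImplicit false

open MeasureTheory ProbabilityTheory
open scoped ENNReal NNReal
open Pool.Agent.H773Z.Hunt

/-- There are independent real Levy processes `X`, `Y`, both satisfying Hunt's hypothesis (H), whose
sum has a Borel semipolar set that is not polar (it is even hit almost surely from the origin). -/
theorem Pool.Agent.Results.MP_9a0bf1_pr.ASumFails.result :
    ∃ (Ω : Type) (_ : MeasurableSpace Ω) (P : Measure Ω) (_ : IsProbabilityMeasure P)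
      (X Y : ℝ≥0 → Ω → ℝ), IsLevy P X ∧ IsLevy P Y ∧
      IndepFun (fun ω t => X t ω) (fun ω t => Y t ω) P ∧ HuntH P X ∧ HuntH P Y ∧
      IsLevy P (fun t ω => X t ω + Y t ω) ∧
      ∃ A : Set ℝ, MeasurableSet A ∧ Semipolar P (fun t ω => X t ω + Y t ω) A ∧
        ¬ Polar P (fun t ω => X t ω + Y t ω) A ∧
        ∀ᵐ ω ∂P, hitTime (fun t ω => X t ω + Y t ω) 0 A ω < ∞ :=
  main_sum
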